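import Mathlib

/-! Helper files of helper71. -/

namespace Pool.Agent.X71

theorem basic_true : True := trivial

end Pool.Agent.X71
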